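import Pool.Agent.Helper54_QE.Defs2

/-!
# Resonance theorem for the Anderson model: definitions
-/

set_option autoImplicit false

open scoped InnerProductSpace ComplexConjugate Topology ENNReal
open MeasureTheory Filter

noncomputable section

namespace Pool.Agent.RES

open Pool.Agent.Anderson Pool.Agent.Helper54.Bal Pool.Agent.QE

variable {d : ℕ}

/-- the sequence of imaginary parts -/
def en (n : ℕ) : ℝ := 1 / ((n : ℝ) + 1)

/-- the Green function `(Δ + V - E - i/(n+1))⁻¹ δ_x` -/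
def GG (V : Cfg d) (E : ℝ) (n : ℕ) (x : Site d) : L2 d := G V (zz (en n) E) (del x)

/-- `φ ∈ ℓ²` solves `(Δ + V - E) φ = δ_x` -/
def Sol (V : Cfg d) (E : ℝ) (x : Site d) (φ : L2 d) : Prop :=
  ∀ y, lap φ y + ((V y : ℂ) - E) * φ y = if y = x then 1 else 0

/-- `ψ ∈ ℓ²` solves `(Δ + V) ψ = E ψ` -/
def Eig (V : Cfg d) (E : ℝ) (ψ : L2 d) : Prop :=
  ∀ y, lap ψ y + ((V y : ℂ) - E) * ψ y = 0

/-- `E` is an eigenvalue with an eigenfunction which does not vanish at `x` -/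
def Atom (V : Cfg d) (E : ℝ) (x : Site d) : Prop := ∃ ψ : L2 d, Eig V E ψ ∧ ψ x ≠ 0

/-- `E` is not an eigenvalue -/
def NoEig (V : Cfg d) (E : ℝ) : Prop := ∀ ψ : L2 d, Eig V E ψ → ψ = 0

/-- the Green functions at `x` are bounded in `ℓ²` as the energy approaches `E` -/
def Bdd (V : Cfg d) (E : ℝ) (x : Site d) : Prop := ∃ C : ℝ, ∀ n, ‖GG V E n x‖ ≤ C

/-- `x` is a `K`-good site at energy `E` -/
def Good (K : ℕ) (V : Cfg d) (E : ℝ) (x : Site d) : Prop :=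
  |V x| ≤ K ∧ (∀ n, ‖GG V E n x‖ ≤ K) ∧ ∀ n, K ≤ n → 1 ≤ (K : ℝ) * ‖GG V E n x x‖

/-- the site law has a density which is bounded below on compact intervals -/
def Low (μ : Measure ℝ) : Prop :=
  ∀ K : ℝ, ∃ c : ℝ, 0 < c ∧ ∀ A : Set ℝ, MeasurableSet A → A ⊆ Set.Icc (-K) K →
    ENNReal.ofReal c * volume A ≤ μ A

/-- the condition under which site `x` is in resonance range of site `a` -/
def Cond (K n : ℕ) (a x : Site d) (p : Cfg d × ℝ) : Prop :=
  ‖GG p.1 p.2 n a‖ ≤ K ∧ ‖GG p.1 p.2 n x‖ ≤ K ∧ |p.1 x| ≤ K ∧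
    1 ≤ (K : ℝ) * ‖GG p.1 p.2 n x x‖ ∧ 8 * (K : ℝ) ^ 4 * en n ≤ ‖GG p.1 p.2 n a x‖

/-- sets of density zero -/
def DensityZero (B : Set (Site d)) : Prop :=
  Tendsto (fun R : ℕ => ((B ∩ (bx d R : Set (Site d))).ncard : ℝ) / ((bx d R).card : ℝ))
    atTop (𝓝 0)

/-- `φ` is summable off a set of density zero -/
def SumOff (φ : L2 d) : Prop :=
  ∃ B : Set (Site d), DensityZero B ∧ Summable fun x : (Bᶜ : Set (Site d)) => ‖φ x‖

end Pool.Agent.RES
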