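import Pool.Agent.Helper70_RES.NulMod
import Pool.Agent.Helper56_RES.Atm
import Pool.Agent.Helper56_RES.Mea
import Pool.Agent.Helper56_RES.Max
import Pool.Agent.Helper87_RES.Basic
import Pool.Agent.Helper11_RES.Den
import Pool.Agent.Helper11_RES.Fat
import Pool.Agent.Helper11_RES.Sym
import Pool.Agent.Helper32_RES.Dzo
import Pool.Agent.Helper32_RES.Vit
import Pool.Agent.Helper32_RES.Win
import Pool.Agent.Helper96_RES.Fin
import Pool.Agent.Helper55_RES.Fix
import Pool.Agent.Helper55_RES.Fnv
import Pool.Agent.Helper55_RES.Gud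
import Pool.Agent.Helper82_RES.Lip
import Pool.Agent.Helper31_RES.STA
import Pool.Agent.Helper27_RES.Xfr

/-!
# Resonance theorem: assembly of the modules
-/

set_option autoImplicit false

namespace Pool.Agent.RES

theorem mea' : MeaStmt := Helper56.RES.MEA.mea_stmt (Helper56.RES.atm_stmt H87.cpt)

theorem nul' : NulStmt := H70.nul H11.sym H87.sol H87.lim H87.bnd mea'

theorem gud' : GudStmt := H55.gud H87.bnd H87.lim

theorem fat' : FatStmt := H11.fat (H31.sta H32.win mea') H87.lim mea'

theorem den' : DenStmt := H11.den (Helper56.RES.max_stmt H32.vit) nul' H87.sol gud' mea'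

theorem fix' : FixStmt := H55.fix nul' fat' den' H32.dzo gud'

theorem xfr' : XfrStmt := H27.xfr (H82.lip H11.sym) H87.clo

theorem fin' : FinStmt := H96.fin (H55.fnv fix' xfr')

end Pool.Agent.RES
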