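import Pool.Agent.Helper70_RES.Final

/-!
# Every square summable eigenfunction of the Anderson model is summable off a set of density zero

The statement is about the Anderson model `H = Δ + σ ξ` on `ℤ^d` at an arbitrary disorder `σ ≠ 0`
and at all energies.
-/

set_option autoImplicit false

open MeasureTheory Filter Topology Pool.Agent.Anderson

noncomputable section

namespace Pool.Agent.Results.MP_1906c1_mp.LocalizedStatesSummable

/-- the law of the i.i.d. sequence `ξ(x)`, `x ∈ ℤ^d`, with single-site law `μ` -/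
def iidLaw (d : ℕ) (μ : Measure ℝ) [IsProbabilityMeasure μ] : Measure (Site d → ℝ) :=
  Measure.infinitePi fun _ : Site d => μ

/-- the box `[-R, R]^d` -/
def cube (d R : ℕ) : Finset (Site d) :=
  Fintype.piFinset fun _ : Fin d => Finset.Icc (-(R : ℤ)) R

/-- the proportion of the sites of `[-R, R]^d` which belong to `B` tends to `0` as `R → ∞` -/
def DensityZero {d : ℕ} (B : Set (Site d)) : Prop :=
  Tendsto (fun R : ℕ => ((B ∩ (cube d R : Set (Site d))).ncard : ℝ) / ((cube d R).card : ℝ))
    atTop (𝓝 0)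

/-- **Resonance theorem.** Let `ξ(x)`, `x ∈ ℤ^d`, be i.i.d. with a law which is absolutely
continuous, with a density bounded below by a positive constant on every interval `[-K, K]` (for
instance standard Gaussian), and let `σ ≠ 0`. Almost surely, for every real `E` and every
`ψ ∈ ℓ²(ℤ^d)` with `Δ ψ + σ ξ ψ = E ψ` there is a set `B` of density zero such that the sum of
`|ψ(x)|` over `x ∉ B` is finite. -/
theorem result (d : ℕ) (μ : Measure ℝ) [IsProbabilityMeasure μ] (hac : μ ≪ volume)
    (hlow : ∀ K : ℝ, ∃ c : ℝ, 0 < c ∧ ∀ A : Set ℝ, MeasurableSet A → A ⊆ Set.Icc (-K) K →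
      ENNReal.ofReal c * volume A ≤ μ A)
    (σ : ℝ) (hσ : σ ≠ 0) :
    ∀ᵐ ξ ∂(iidLaw d μ), ∀ (E : ℝ) (ψ : L2 d),
      (∀ x, lap ψ x + ((σ * ξ x : ℝ) : ℂ) * ψ x = (E : ℂ) * ψ x) →
        ∃ B : Set (Site d), DensityZero B ∧ Summable fun x : (Bᶜ : Set (Site d)) => ‖ψ x‖ := by
  filter_upwards [RES.fin' d μ hac hlow σ hσ] with ξ hξ E ψ hψ
  exact hξ E ψ hψ

end Pool.Agent.Results.MP_1906c1_mp.LocalizedStatesSummable
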