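import Pool.Agent.Helper70_RES.Stmts
import Pool.Agent.Helper68_QE.Resample
import Pool.Agent.Helper54_QE.Seqs

/-!
# Module NUL: almost sure properties of the Green function
-/

set_option autoImplicit false

open scoped InnerProductSpace ComplexConjugate Topology ENNReal
open MeasureTheory Filter

noncomputable section

namespace Pool.Agent.RES.H70

open Pool.Agent.Anderson Pool.Agent.Helper54.Bal Pool.Agent.QE

variable {d : ℕ}

theorem null_of_slice {μ : Measure ℝ} [IsProbabilityMeasure μ] (hna : ∀ v : ℝ, μ {v} = 0)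
    (y : Site d) {S : Set (Cfg d × ℝ)} (hS : MeasurableSet S)
    (h : ∀ (p : Cfg d × ℝ) (v : ℝ), p ∈ S → (Function.update p.1 y v, p.2) ∈ S → p.1 y = v) :
    (KK d μ) S = 0 := by
  refine null d μ y S hS ?_
  filter_upwards [ae_ne hna] with ω hω h1 h2
  exact hω y (h ω.1 ω.2 h1 h2).symm

theorem lap_sub' (f g : L2 d) (x : Site d) : lap (⇑(f - g)) x = lap f x - lap g x := by
  rw [← Lap_apply, ← Lap_apply, ← Lap_apply, map_sub, lp.coeFn_sub, Pi.sub_apply]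

theorem lap_smul' (c : ℂ) (f : L2 d) (x : Site d) : lap (⇑(c • f)) x = c * lap f x := by
  rw [← Lap_apply, ← Lap_apply, map_smul, lp.coeFn_smul, Pi.smul_apply, smul_eq_mul]

theorem sol_ne {V : Cfg d} {E : ℝ} {x : Site d} {φ : L2 d} (h : Sol V E x φ) :
    ∃ y, φ y ≠ 0 := by
  by_contra hcon
  push Not at hcon
  have h1 := h x
  have h0 : φ = 0 := by
    ext y
    rw [hcon y]; rfl
  rw [if_pos rfl, h0] at h1
  have h2 : lap (⇑(0 : L2 d)) x = 0 := by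
    rw [← Lap_apply, map_zero]; rfl
  rw [h2] at h1
  simp at h1

theorem bdd_of_sol (hBnd : BndStmt) {V : Cfg d} {E : ℝ} {x : Site d} {φ : L2 d}
    (h : Sol V E x φ) : Bdd V E x := ⟨2 * ‖φ‖, fun n => hBnd d V E x φ h n⟩

theorem nul (hSym : SymStmt) (hSol : SolStmt) (hLim : LimStmt) (hBnd : BndStmt)
    (hMea : MeaStmt) : NulStmt := by
  intro d μ _ hna
  obtain ⟨_, _, mA, mN, mB, _, mT, _⟩ := hMea d
  -- no eigenvalues
  have h1 : ∀ x : Site d, (KK d μ) {p : Cfg d × ℝ | Atom p.1 p.2 x} = 0 := by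
    intro x
    refine null_of_slice hna x (mA x) ?_
    rintro ⟨V, E⟩ v ⟨ψ, h1, h2⟩ ⟨ψ', h3, h4⟩
    obtain ⟨-, -, h5⟩ := hSym d V x v E E ψ ψ' x x 0 0 (fun y => by rw [h1 y]; simp)
      (fun y => by rw [h3 y]; simp)
    rw [zero_mul, zero_mul, sub_self, sub_self, zero_mul, add_zero] at h5
    have h6 : ((V x : ℂ) - v) = 0 := by
      by_contra hcon
      exact mul_ne_zero (mul_ne_zero hcon h2) h4 h5.symm
    exact_mod_cast sub_eq_zero.1 h6
  -- the solution does not vanish at `x`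
  have h2 : ∀ x y : Site d, (KK d μ) {p : Cfg d × ℝ | NoEig p.1 p.2 ∧ Bdd p.1 p.2 x ∧
      Tendsto (fun n => GG p.1 p.2 n x x) atTop (𝓝 0) ∧
      ¬ Tendsto (fun n => GG p.1 p.2 n x y) atTop (𝓝 0)} = 0 := by
    intro x y
    refine null_of_slice hna y ?_ ?_
    · exact mN.inter ((mB x).inter ((mT x x).inter (mT x y).compl))
    rintro ⟨V, E⟩ v ⟨h1, h2, h3, h4⟩ ⟨k1, k2, k3, k4⟩
    obtain ⟨φ, hφ⟩ := hSol d V E x h2
    obtain ⟨φ', hφ'⟩ := hSol d (Function.update V y v) E x k2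
    have e1 : φ x = 0 := tendsto_nhds_unique (hLim d V E x φ h1 hφ x) h3
    have e2 : φ' x = 0 := tendsto_nhds_unique (hLim d _ E x φ' k1 hφ' x) k3
    have e3 : φ y ≠ 0 := fun h => h4 (h ▸ hLim d V E x φ h1 hφ y)
    have e4 : φ' y ≠ 0 := fun h => k4 (h ▸ hLim d _ E x φ' k1 hφ' y)
    obtain ⟨-, -, h5⟩ := hSym d V y v E E φ φ' x x 1 1 hφ hφ'
    rw [e1, e2, sub_self, sub_self, zero_mul, add_zero] at h5
    have h6 : ((V y : ℂ) - v) = 0 := by
      by_contra hcon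
      exact mul_ne_zero (mul_ne_zero hcon e3) e4 h5.symm
    exact_mod_cast sub_eq_zero.1 h6
  -- propagation of boundedness
  have h3 : ∀ x y : Site d, (KK d μ) {p : Cfg d × ℝ | NoEig p.1 p.2 ∧ Bdd p.1 p.2 x ∧
      ¬ Bdd p.1 p.2 y ∧ ¬ Tendsto (fun n => GG p.1 p.2 n x y) atTop (𝓝 0)} = 0 := by
    intro x y
    refine null_of_slice hna y ?_ ?_
    · exact mN.inter ((mB x).inter ((mB y).compl.inter (mT x y).compl))
    rintro ⟨V, E⟩ v ⟨h1, h2, h3, h4⟩ ⟨k1, k2, k3, k4⟩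
    obtain ⟨φ, hφ⟩ := hSol d V E x h2
    obtain ⟨φ', hφ'⟩ := hSol d (Function.update V y v) E x k2
    have e4 : φ' y ≠ 0 := fun h => k4 (h ▸ hLim d _ E x φ' k1 hφ' y)
    by_contra hne
    have hc : ((V y : ℂ) - v) * φ' y ≠ 0 := by
      refine mul_ne_zero (sub_ne_zero.2 ?_) e4
      exact_mod_cast hne
    refine h3 (bdd_of_sol hBnd (φ := (((V y : ℂ) - v) * φ' y)⁻¹ • (φ' - φ)) ?_)
    intro w
    change lap _ w + ((V w : ℂ) - E) * _ = _
    have a1 := hφ w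
    have a2 := hφ' w
    rw [lap_smul', lap_sub', lp.coeFn_smul, Pi.smul_apply, lp.coeFn_sub, Pi.sub_apply,
      smul_eq_mul]
    have a3 : lap φ' w + ((V w : ℂ) - E) * φ' w = (if w = x then 1 else 0) +
        (if w = y then ((V y : ℂ) - v) * φ' y else 0) := by
      rw [← a2]
      by_cases hw : w = y
      · subst hw
        rw [if_pos rfl, Function.update_self]
        ring
      · rw [if_neg hw, Function.update_of_ne hw]
        ring
    have a4 : (((V y : ℂ) - v) * φ' y)⁻¹ * (lap φ' w - lap φ w) +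
        ((V w : ℂ) - E) * ((((V y : ℂ) - v) * φ' y)⁻¹ * (φ' w - φ w)) =
        (((V y : ℂ) - v) * φ' y)⁻¹ * ((lap φ' w + ((V w : ℂ) - E) * φ' w) -
          (lap φ w + ((V w : ℂ) - E) * φ w)) := by ring
    rw [a4, a3, a1, add_sub_cancel_left]
    by_cases hw : w = y
    · rw [if_pos hw, if_pos hw, inv_mul_cancel₀ hc]
    · rw [if_neg hw, if_neg hw, mul_zero]
  have H1 : ∀ᵐ p ∂(KK d μ), ∀ x, ¬ Atom p.1 p.2 x := by
    rw [ae_all_iff]
    intro x
    exact measure_eq_zero_iff_ae_notMem.1 (h1 x)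
  have H2 : ∀ᵐ p ∂(KK d μ), ∀ x y, ¬ (NoEig p.1 p.2 ∧ Bdd p.1 p.2 x ∧
      Tendsto (fun n => GG p.1 p.2 n x x) atTop (𝓝 0) ∧
      ¬ Tendsto (fun n => GG p.1 p.2 n x y) atTop (𝓝 0)) := by
    rw [ae_all_iff]
    intro x
    rw [ae_all_iff]
    intro y
    exact measure_eq_zero_iff_ae_notMem.1 (h2 x y)
  have H3 : ∀ᵐ p ∂(KK d μ), ∀ x y, ¬ (NoEig p.1 p.2 ∧ Bdd p.1 p.2 x ∧
      ¬ Bdd p.1 p.2 y ∧ ¬ Tendsto (fun n => GG p.1 p.2 n x y) atTop (𝓝 0)) := by
    rw [ae_all_iff]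
    intro x
    rw [ae_all_iff]
    intro y
    exact measure_eq_zero_iff_ae_notMem.1 (h3 x y)
  filter_upwards [H1, H2, H3] with p p1 p2 p3
  have hN : NoEig p.1 p.2 := by
    intro ψ hψ
    ext x
    by_contra hx
    exact p1 x ⟨ψ, hψ, hx⟩
  refine ⟨hN, fun x φ hφ => ?_⟩
  have hB : Bdd p.1 p.2 x := bdd_of_sol hBnd hφ
  have hT : ∀ y, φ y ≠ 0 → ¬ Tendsto (fun n => GG p.1 p.2 n x y) atTop (𝓝 0) :=
    fun y hy h => hy (tendsto_nhds_unique (hLim d _ _ x φ hN hφ y) h)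
  constructor
  · intro h0
    obtain ⟨y, hy⟩ := sol_ne hφ
    refine p2 x y ⟨hN, hB, ?_, hT y hy⟩
    have := hLim d _ _ x φ hN hφ x
    rwa [h0] at this
  · intro y hy
    by_contra hcon
    exact p3 x y ⟨hN, hB, hcon, hT y hy⟩

end Pool.Agent.RES.H70
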