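import Pool.Agent.Helper70_RES.Defs

/-!
# Resonance theorem for the Anderson model: module statements
-/

set_option autoImplicit false

open scoped InnerProductSpace ComplexConjugate Topology ENNReal
open MeasureTheory Filter

noncomputable section

namespace Pool.Agent.RES

open Pool.Agent.Anderson Pool.Agent.Helper54.Bal Pool.Agent.QE

/-- module SYM: symmetry of `Δ + V` -/
def SymStmt : Prop := ∀ (d : ℕ) (V : Cfg d) (y : Site d) (v E E' : ℝ) (φ φ' : L2 d)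
  (a b : Site d) (c c' : ℂ)
  (_ : ∀ x, lap φ x + ((V x : ℂ) - E) * φ x = if x = a then c else 0)
  (_ : ∀ x, lap φ' x + (((Function.update V y v) x : ℂ) - E') * φ' x = if x = b then c' else 0),
  (Summable fun x => φ x * φ' x) ∧ ‖∑' x, φ x * φ' x‖ ≤ ‖φ‖ * ‖φ'‖ ∧
  c * φ' a - c' * φ b = ((V y : ℂ) - v) * φ y * φ' y + ((E' : ℂ) - E) * ∑' x, φ x * φ' x

/-- module CPT: bounded sequences in `ℓ²` have pointwise convergent subsequences -/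
def CptStmt : Prop := ∀ (d : ℕ) (u : ℕ → L2 d) (C : ℝ) (_ : ∀ n, ‖u n‖ ≤ C),
  ∃ (φ : L2 d) (s : ℕ → ℕ), StrictMono s ∧ ‖φ‖ ≤ C ∧
    ∀ x, Tendsto (fun n => u (s n) x) atTop (𝓝 (φ x))

/-- module BND -/
def BndStmt : Prop := ∀ (d : ℕ) (V : Cfg d) (E : ℝ) (x : Site d) (φ : L2 d)
  (_ : Sol V E x φ) (n : ℕ), ‖GG V E n x‖ ≤ 2 * ‖φ‖

/-- module SOL (uses CPT) -/
def SolStmt : Prop := ∀ (d : ℕ) (V : Cfg d) (E : ℝ) (x : Site d) (_ : Bdd V E x),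
  ∃ φ : L2 d, Sol V E x φ

/-- module LIM (uses CPT) -/
def LimStmt : Prop := ∀ (d : ℕ) (V : Cfg d) (E : ℝ) (x : Site d) (φ : L2 d) (_ : NoEig V E)
  (_ : Sol V E x φ) (y : Site d), Tendsto (fun n => GG V E n x y) atTop (𝓝 (φ y))

/-- module ATM (uses CPT) -/
def AtmStmt : Prop := ∀ (d : ℕ) (V : Cfg d) (E : ℝ) (x : Site d),
  Atom V E x ↔ ¬ Tendsto (fun n => en n * ‖GG V E n x‖) atTop (𝓝 0)

/-- module MEA (uses ATM) -/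
def MeaStmt : Prop := ∀ d : ℕ,
  (∀ (n : ℕ) (x : Site d), Measurable fun p : Cfg d × ℝ => ‖GG p.1 p.2 n x‖) ∧
  (∀ (n : ℕ) (x y : Site d), Measurable fun p : Cfg d × ℝ => GG p.1 p.2 n x y) ∧
  (∀ x : Site d, MeasurableSet {p : Cfg d × ℝ | Atom p.1 p.2 x}) ∧
  (MeasurableSet {p : Cfg d × ℝ | NoEig p.1 p.2}) ∧
  (∀ x : Site d, MeasurableSet {p : Cfg d × ℝ | Bdd p.1 p.2 x}) ∧
  (∀ (K : ℕ) (x : Site d), MeasurableSet {p : Cfg d × ℝ | Good K p.1 p.2 x}) ∧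
  (∀ x y : Site d, MeasurableSet {p : Cfg d × ℝ |
    Tendsto (fun n => GG p.1 p.2 n x y) atTop (𝓝 0)}) ∧
  (∀ (K n : ℕ) (a x : Site d), MeasurableSet {p : Cfg d × ℝ | Cond K n a x p})

/-- module NUL (uses SYM, SOL, LIM, BND, MEA): almost sure properties of the Green function -/
def NulStmt : Prop := ∀ (d : ℕ) (μ : Measure ℝ) [IsProbabilityMeasure μ]
  (_ : ∀ v : ℝ, μ {v} = 0), ∀ᵐ p ∂(KK d μ), NoEig p.1 p.2 ∧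
    ∀ (x : Site d) (φ : L2 d), Sol p.1 p.2 x φ →
      φ x ≠ 0 ∧ ∀ y, φ y ≠ 0 → Bdd p.1 p.2 y

/-- module WIN: the resonance window -/
def WinStmt : Prop := ∀ (K η v₀ : ℝ) (g b : ℂ) (_ : 1 ≤ K) (_ : 0 < η) (_ : 0 ≤ g.im)
  (_ : g.im ≤ η * K ^ 2) (_ : ‖g‖ ≤ K) (_ : 1 ≤ K * ‖g‖) (_ : 8 * K ^ 4 * η ≤ ‖b‖)
  (_ : ‖b‖ ≤ K) (_ : |v₀| ≤ K),
  ∃ p : ℝ, Set.Icc p (p + ‖b‖ / (4 * K)) ⊆ Set.Icc (-(5 * K ^ 2)) (5 * K ^ 2) ∧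
    ∀ w ∈ Set.Icc p (p + ‖b‖ / (4 * K)), |w - v₀| ≤ 4 * K ^ 2 ∧
      ‖1 + ((w : ℂ) - v₀) * g‖ ≤ ‖b‖ ∧ ‖b‖ ≤ 4 * ‖1 + ((w : ℂ) - v₀) * g‖

/-- module STA (uses WIN, MEA): the resonance bound -/
def StaStmt : Prop := ∀ (d : ℕ) (μ : Measure ℝ) [IsProbabilityMeasure μ] (_ : Low μ)
  (a : Site d) (K : ℕ) (_ : 1 ≤ K), ∃ C : ℝ≥0∞, C ≠ ∞ ∧ ∀ n : ℕ,
    ∑' x, ∫⁻ p, Set.indicator {p : Cfg d × ℝ | Cond K n a x p}
      (fun p => ‖GG p.1 p.2 n a x‖ₑ) p ∂(KK d μ) ≤ C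

/-- module FAT (uses STA, LIM, MEA): summability over good sites -/
def FatStmt : Prop := ∀ (d : ℕ) (μ : Measure ℝ) [IsProbabilityMeasure μ] (_ : Low μ)
  (a : Site d), ∀ᵐ p ∂(KK d μ), NoEig p.1 p.2 → ∀ K : ℕ, Good K p.1 p.2 a →
    ∀ φ : L2 d, Sol p.1 p.2 a φ →
      Summable (Set.indicator {x | Good K p.1 p.2 x} fun x => ‖φ x‖)

/-- module VIT: the covering inequality -/
def VitStmt : Prop := ∀ (d : ℕ) (A B : Finset (Site d)) (r : Site d → ℕ) (ε : ℝ) (_ : 0 < ε)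
  (_ : ∀ x ∈ A, ε * (2 * (r x : ℝ) + 1) ^ d ≤
    (((B : Set (Site d)) ∩ {y | y - x ∈ bx d (r x)}).ncard : ℝ)),
  ε * (A.card : ℝ) ≤ 5 ^ d * (B.card : ℝ)

/-- module MAX (uses VIT): the maximal ergodic inequality -/
def MaxStmt : Prop := ∀ (d : ℕ) (X : Type) [MeasurableSpace X] (κ : Measure X)
  [IsFiniteMeasure κ] (T : Site d → X → X) (_ : ∀ a, MeasurePreserving (T a) κ κ)
  (_ : ∀ a b p, T a (T b p) = T (a + b) p) (S : Set X) (_ : MeasurableSet S) (ε : ℝ)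
  (_ : 0 < ε),
  κ {p | ∃ R : ℕ, ε * (2 * (R : ℝ) + 1) ^ d ≤
    (({x | T x p ∈ S} ∩ (bx d R : Set (Site d))).ncard : ℝ)} ≤
    ENNReal.ofReal (10 ^ d / ε) * κ S

/-- module GUD (uses BND, LIM): every site with `φ x ≠ 0` is good for large `K` -/
def GudStmt : Prop := ∀ (d : ℕ) (V : Cfg d) (E : ℝ) (x : Site d) (φ : L2 d) (_ : NoEig V E)
  (_ : Sol V E x φ) (_ : φ x ≠ 0), ∃ K : ℕ, ∀ K' : ℕ, K ≤ K' → Good K' V E x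

/-- module DEN (uses MAX, NUL, SOL, GUD, MEA): bad sites are rare -/
def DenStmt : Prop := ∀ (d : ℕ) (μ : Measure ℝ) [IsProbabilityMeasure μ]
  (_ : ∀ v : ℝ, μ {v} = 0), ∀ᵐ p ∂(KK d μ), ∀ j : ℕ, ∃ K : ℕ, ∀ K' : ℕ, K ≤ K' → ∀ R : ℕ,
    (({x | Bdd p.1 p.2 x ∧ ¬ Good K' p.1 p.2 x} ∩ (bx d R : Set (Site d))).ncard : ℝ) ≤
      (2 * (R : ℝ) + 1) ^ d / (j + 1)

/-- module DZO: from small density to density zero -/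
def DzoStmt : Prop := ∀ (d : ℕ) (φ : L2 d)
  (_ : ∀ j : ℕ, ∃ B : Set (Site d), (∀ R : ℕ, ((B ∩ (bx d R : Set (Site d))).ncard : ℝ) ≤
    (2 * (R : ℝ) + 1) ^ d / (j + 1)) ∧ Summable (Set.indicator Bᶜ fun x => ‖φ x‖)), SumOff φ

/-- module FIX (uses NUL, FAT, DEN, DZO, GUD): the theorem for almost every energy -/
def FixStmt : Prop := ∀ (d : ℕ) (μ : Measure ℝ) [IsProbabilityMeasure μ]
  (_ : ∀ v : ℝ, μ {v} = 0) (_ : Low μ), ∀ᵐ p ∂(KK d μ), ∀ (a : Site d) (φ : L2 d),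
    Sol p.1 p.2 a φ → SumOff φ

/-- module LIP (uses SYM): values of the potential for which a set of energies contains an
eigenvalue -/
def LipStmt : Prop := ∀ (d : ℕ) (V : Cfg d) (a : Site d) (m : ℝ) (_ : 0 ≤ m) (O : Set ℝ),
  volume {v : ℝ | ∃ E ∈ O, ∃ ψ : L2 d, Eig (Function.update V a v) E ψ ∧ ψ a = 1 ∧ ‖ψ‖ ≤ m} ≤
    ENNReal.ofReal (m ^ 2) * volume O

/-- module CLO -/
def CloStmt : Prop := ∀ (d : ℕ) (a : Site d) (m : ℝ) (_ : 0 ≤ m) (F : Set (Cfg d × ℝ))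
  (_ : IsClosed F), IsClosed {V : Cfg d | ∃ E ∈ Set.Icc (-m) m, ∃ ψ : L2 d,
    Eig V E ψ ∧ ψ a = 1 ∧ ‖ψ‖ ≤ m ∧ (V, E) ∈ F}

/-- module XFR (uses LIP, CLO): from almost every energy to eigenvalues -/
def XfrStmt : Prop := ∀ (d : ℕ) (μ : Measure ℝ) [IsProbabilityMeasure μ] (_ : μ ≪ volume)
  (a : Site d) (N : Set (Cfg d × ℝ)) (_ : (KK d μ) N = 0), ∀ᵐ V ∂(PP d μ),
    ∀ (E : ℝ) (ψ : L2 d), Eig V E ψ → ψ a ≠ 0 →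
      ∃ v : ℝ, v ≠ V a ∧ (Function.update V a v, E) ∉ N

/-- module FNV (uses FIX, XFR): the theorem for the potential `V` -/
def FnvStmt : Prop := ∀ (d : ℕ) (μ : Measure ℝ) [IsProbabilityMeasure μ] (_ : μ ≪ volume)
  (_ : Low μ), ∀ᵐ V ∂(PP d μ), ∀ (E : ℝ) (ψ : L2 d), Eig V E ψ → SumOff ψ

/-- module FIN (uses FNV): the theorem for `H = Δ + σ ξ` -/
def FinStmt : Prop := ∀ (d : ℕ) (μ : Measure ℝ) [IsProbabilityMeasure μ] (_ : μ ≪ volume)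
  (_ : Low μ) (σ : ℝ) (_ : σ ≠ 0), ∀ᵐ ξ ∂(PP d μ), ∀ (E : ℝ) (ψ : L2 d),
    (∀ x, lap ψ x + ((σ * ξ x : ℝ) : ℂ) * ψ x = (E : ℂ) * ψ x) → SumOff ψ

end Pool.Agent.RES
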